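import Pool.Agent.TH198.AT.Stmts

/-!
# Derivatives of `KK` (piece AT-KD)
-/

set_option autoImplicit false

open MeasureTheory ProbabilityTheory Set

namespace Pool.Agent.TH424.AT

open Pool.TH198.AT

theorem dsech (x : ℝ) : HasDerivAt sech (-(sech x * Real.tanh x)) x := by
  have hc : Real.cosh x ≠ 0 := (Real.cosh_pos x).ne'
  have h : HasDerivAt (fun y => (Real.cosh y)⁻¹) (-Real.sinh x / Real.cosh x ^ 2) x :=
    (Real.hasDerivAt_cosh x).inv hc
  have e : -Real.sinh x / Real.cosh x ^ 2 = -(sech x * Real.tanh x) := by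
    rw [Real.tanh_eq_sinh_div_cosh, sech]
    field_simp
  rw [e] at h
  exact h

theorem dtanh (x : ℝ) : HasDerivAt Real.tanh (sech x ^ 2) x := by
  have hc : Real.cosh x ≠ 0 := (Real.cosh_pos x).ne'
  have h := (Real.hasDerivAt_sinh x).div (Real.hasDerivAt_cosh x) hc
  have e : (Real.tanh : ℝ → ℝ) = fun x => Real.sinh x / Real.cosh x := by
    funext y
    exact Real.tanh_eq_sinh_div_cosh y
  have e2 : (Real.cosh x * Real.cosh x - Real.sinh x * Real.sinh x) / Real.cosh x ^ 2
      = sech x ^ 2 := by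
    rw [sech]
    field_simp
    have := Real.cosh_sq x
    nlinarith [this]
  rw [e2] at h
  rw [e]
  exact h

theorem rel (x : ℝ) : Real.tanh x ^ 2 = 1 - sech x ^ 2 := by
  have hc : Real.cosh x ≠ 0 := (Real.cosh_pos x).ne'
  rw [Real.tanh_eq_sinh_div_cosh, sech]
  field_simp
  have := Real.cosh_sq x
  linarith

theorem sech_pos (x : ℝ) : 0 < sech x := inv_pos.2 (Real.cosh_pos x)

theorem sech_le (x : ℝ) : sech x ≤ 1 := inv_le_one_of_one_le₀ (Real.one_le_cosh x)

theorem csech : Continuous sech := Real.continuous_cosh.inv₀ fun x => (Real.cosh_pos x).ne'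

theorem ctanh : Continuous Real.tanh := by
  have e : (Real.tanh : ℝ → ℝ) = fun x => Real.sinh x / Real.cosh x := by
    funext y
    exact Real.tanh_eq_sinh_div_cosh y
  rw [e]
  exact Real.continuous_sinh.div Real.continuous_cosh fun x => (Real.cosh_pos x).ne'

theorem tanh_le (x : ℝ) : |Real.tanh x| ≤ 1 := by
  have h := rel x
  have h2 := sq_nonneg (sech x)
  rw [← sq_le_one_iff_abs_le_one, h]
  linarith

/-- first derivative of `sech` -/
noncomputable def s1 (x : ℝ) : ℝ := -(sech x * Real.tanh x)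

/-- second derivative of `sech` -/
noncomputable def s2 (x : ℝ) : ℝ := sech x - 2 * sech x ^ 3

/-- third derivative of `sech` -/
noncomputable def s3 (x : ℝ) : ℝ := -(sech x * Real.tanh x) + 6 * (sech x ^ 3 * Real.tanh x)

/-- fourth derivative of `sech` -/
noncomputable def s4 (x : ℝ) : ℝ := sech x - 20 * sech x ^ 3 + 24 * sech x ^ 5

theorem d0 (x : ℝ) : HasDerivAt sech (s1 x) x := dsech x

theorem d1 (x : ℝ) : HasDerivAt s1 (s2 x) x := by
  have h := ((dsech x).mul (dtanh x)).neg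
  have e : -(-(sech x * Real.tanh x) * Real.tanh x + sech x * sech x ^ 2) = s2 x := by
    unfold s2
    linear_combination (sech x) * rel x
  rw [e] at h
  exact h

theorem d2 (x : ℝ) : HasDerivAt s2 (s3 x) x := by
  have h := (dsech x).sub (((dsech x).pow 3).const_mul 2)
  refine HasDerivAt.congr_deriv h ?_
  unfold s3
  norm_num
  ring

theorem d3 (x : ℝ) : HasDerivAt s3 (s4 x) x := by
  have h := (((dsech x).mul (dtanh x)).neg).add
    ((((dsech x).pow 3).mul (dtanh x)).const_mul 6)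
  refine HasDerivAt.congr_deriv h ?_
  unfold s4
  norm_num
  linear_combination (sech x - 18 * sech x ^ 3) * rel x

theorem sp (x : ℝ) (n : ℕ) : 0 ≤ sech x ^ n ∧ sech x ^ n ≤ 1 :=
  ⟨pow_nonneg (sech_pos x).le n, pow_le_one₀ (sech_pos x).le (sech_le x)⟩

theorem b0 (x : ℝ) : |sech x| ≤ 1 := by
  rw [abs_of_pos (sech_pos x)]
  exact sech_le x

theorem b1 (x : ℝ) : |s1 x| ≤ 1 := by
  unfold s1
  rw [abs_neg, abs_mul]
  exact mul_le_one₀ (b0 x) (abs_nonneg _) (tanh_le x)

theorem b2 (x : ℝ) : |s2 x| ≤ 3 := by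
  unfold s2
  have h1 := sp x 3
  have h2 := sech_pos x
  have h3 := sech_le x
  rw [abs_le]
  constructor <;> linarith

theorem b3 (x : ℝ) : |s3 x| ≤ 7 := by
  have h1 : |sech x ^ 3 * Real.tanh x| ≤ 1 := by
    rw [abs_mul]
    refine mul_le_one₀ ?_ (abs_nonneg _) (tanh_le x)
    rw [abs_of_nonneg (sp x 3).1]
    exact (sp x 3).2
  have h2 := b1 x
  unfold s1 at h2
  unfold s3
  rw [abs_le] at h1 h2 ⊢
  constructor <;> linarith [h1.1, h1.2, h2.1, h2.2]

theorem b4 (x : ℝ) : |s4 x| ≤ 45 := by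
  unfold s4
  have h1 := sp x 3
  have h4 := sp x 5
  have h2 := sech_pos x
  have h3 := sech_le x
  rw [abs_le]
  constructor <;> linarith [h1.1, h1.2, h4.1, h4.2]

theorem c1 : Continuous s1 := (csech.mul ctanh).neg

theorem c2 : Continuous s2 := csech.sub ((csech.pow 3).const_mul 2)

theorem c3 : Continuous s3 := (csech.mul ctanh).neg.add (((csech.pow 3).mul ctanh).const_mul 6)

theorem c4 : Continuous s4 := (csech.sub ((csech.pow 3).const_mul 20)).add ((csech.pow 5).const_mul 24)

theorem C0 : C2b sech s1 s2 :=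
  ⟨d0, d1, c2, 3, fun x => ⟨(b1 x).trans (by norm_num), b2 x⟩⟩

theorem C1 : C2b s1 s2 s3 :=
  ⟨d1, d2, c3, 7, fun x => ⟨(b2 x).trans (by norm_num), b3 x⟩⟩

theorem C2 : C2b s2 s3 s4 :=
  ⟨d2, d3, c4, 45, fun x => ⟨(b3 x).trans (by norm_num), b4 x⟩⟩

theorem E1_le {F : ℝ → ℝ} {C : ℝ} (h : ∀ y, |F y| ≤ C) : |E1 F| ≤ C := by
  have h1 := norm_integral_le_of_norm_le_const (μ := gaussianReal 0 1) (f := F) (C := C)
    (Filter.Eventually.of_forall fun y => by rw [Real.norm_eq_abs]; exact h y)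
  rw [Real.norm_eq_abs] at h1
  simpa [E1] using h1

/-- the heat extensions -/
noncomputable def SS (g : ℝ → ℝ) (w x : ℝ) : ℝ := E1 (fun y => g (x + √w * y))

/-- first derivative of `KK` -/
noncomputable def Kx (w x : ℝ) : ℝ :=
  -(Real.exp (-w / 2) * (s1 x * SS sech w x + sech x * SS s1 w x))

/-- second derivative of `KK` -/
noncomputable def Kxx (w x : ℝ) : ℝ :=
  -(Real.exp (-w / 2) * ((s2 x * SS sech w x + s1 x * SS s1 w x) +
    (s1 x * SS s1 w x + sech x * SS s2 w x)))

theorem KK_eq (w : ℝ) : KK w = fun x => 1 - Real.exp (-w / 2) * (sech x * SS sech w x) := by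
  funext x
  rw [KK, SS, mul_assoc]

theorem t_KD (hH : St_HEAT) (hX : St_HEATX) : St_KD := by
  have x0 : ∀ w x : ℝ, HasDerivAt (SS sech w) (SS s1 w x) x := fun w x =>
    hX sech s1 1 d0 c1 b1 (√w) x
  have x1 : ∀ w x : ℝ, HasDerivAt (SS s1 w) (SS s2 w x) x := fun w x =>
    hX s1 s2 3 d1 c2 b2 (√w) x
  have k0 : Continuous (fun p : ℝ × ℝ => SS sech p.1 p.2) :=
    (hH sech s1 s2 C0).2.comp (continuous_snd.prodMk continuous_fst)
  have k1 : Continuous (fun p : ℝ × ℝ => SS s1 p.1 p.2) :=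
    (hH s1 s2 s3 C1).2.comp (continuous_snd.prodMk continuous_fst)
  have k2 : Continuous (fun p : ℝ × ℝ => SS s2 p.1 p.2) :=
    (hH s2 s3 s4 C2).2.comp (continuous_snd.prodMk continuous_fst)
  have ke : Continuous (fun p : ℝ × ℝ => Real.exp (-p.1 / 2)) :=
    Real.continuous_exp.comp (continuous_fst.neg.div_const 2)
  have bS0 : ∀ w x, |SS sech w x| ≤ 1 := fun w x => E1_le fun y => b0 _
  have bS1 : ∀ w x, |SS s1 w x| ≤ 1 := fun w x => E1_le fun y => b1 _
  have bS2 : ∀ w x, |SS s2 w x| ≤ 3 := fun w x => E1_le fun y => b2 _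
  refine ⟨Kx, Kxx, 10, ?_, ?_, ?_, ?_, ?_, ?_, ?_⟩
  · intro w x _
    constructor
    · have h := (((d0 x).mul (x0 w x)).const_mul (Real.exp (-w / 2))).const_sub 1
      rw [KK_eq]
      exact h
    · have h := ((((d1 x).mul (x0 w x)).add ((d0 x).mul (x1 w x))).const_mul
        (Real.exp (-w / 2))).neg
      exact h
  · intro w x hw
    have h1 := (hH sech s1 s2 C0).1 x w hw
    have h2 : HasDerivAt (fun w : ℝ => Real.exp (-w / 2)) (Real.exp (-w / 2) * (-1 / 2)) w :=
      (((hasDerivAt_id w).neg).div_const 2).exp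
    have h3 := ((h2.mul_const (sech x)).mul h1).const_sub 1
    have e : Kxx w x / 2 + Real.tanh x * Kx w x =
        -(Real.exp (-w / 2) * (-1 / 2) * sech x * E1 (fun y => sech (x + √w * y)) +
          Real.exp (-w / 2) * sech x * (E1 (fun y => s2 (x + √w * y)) / 2)) := by
      unfold Kxx Kx SS s1
      have hs : s2 x = sech x * Real.tanh x ^ 2 - sech x ^ 3 := by
        rw [rel, s2]
        ring
      have hr := rel x
      rw [hs]
      have hr2 : sech x ^ 3 = sech x * (1 - Real.tanh x ^ 2) := by rw [hr]; ring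
      rw [hr2]
      ring
    rw [e]
    exact h3
  · have h : Continuous (fun p : ℝ × ℝ => KK p.1 p.2) := by
      have h1 : (fun p : ℝ × ℝ => KK p.1 p.2) = fun p : ℝ × ℝ =>
          1 - Real.exp (-p.1 / 2) * (sech p.2 * SS sech p.1 p.2) := by
        funext p
        rw [KK_eq]
      rw [h1]
      exact continuous_const.sub (ke.mul ((csech.comp continuous_snd).mul k0))
    exact h.continuousOn
  · have h : Continuous (fun p : ℝ × ℝ => Kx p.1 p.2) :=
      (ke.mul (((c1.comp continuous_snd).mul k0).add ((csech.comp continuous_snd).mul k1))).neg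
    exact h.continuousOn
  · have h : Continuous (fun p : ℝ × ℝ => Kxx p.1 p.2) :=
      (ke.mul ((((c2.comp continuous_snd).mul k0).add ((c1.comp continuous_snd).mul k1)).add
        (((c1.comp continuous_snd).mul k1).add ((csech.comp continuous_snd).mul k2)))).neg
    exact h.continuousOn
  · intro w x hw
    have he0 : 0 < Real.exp (-w / 2) := Real.exp_pos _
    have he : Real.exp (-w / 2) ≤ 1 := Real.exp_le_one_iff.2 (by linarith)
    have key : ∀ a c : ℝ, |a| ≤ c → |Real.exp (-w / 2) * a| ≤ c := by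
      intro a c hc
      rw [abs_mul, abs_of_pos he0]
      exact (mul_le_of_le_one_left (abs_nonneg a) he).trans hc
    have m : ∀ a b A B : ℝ, |a| ≤ A → |b| ≤ B → |a * b| ≤ A * B := by
      intro a b A B ha hb
      rw [abs_mul]
      exact mul_le_mul ha hb (abs_nonneg _) ((abs_nonneg _).trans ha)
    refine ⟨?_, ?_, ?_⟩
    · rw [KK_eq]
      have h1 := key _ _ (m _ _ _ _ (b0 x) (bS0 w x))
      rw [abs_le] at h1 ⊢
      constructor <;> linarith [h1.1, h1.2]
    · unfold Kx
      rw [abs_neg]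
      refine key _ _ ((abs_add_le _ _).trans ?_)
      have h1 := m _ _ _ _ (b1 x) (bS0 w x)
      have h2 := m _ _ _ _ (b0 x) (bS1 w x)
      linarith
    · unfold Kxx
      rw [abs_neg]
      refine key _ _ ((abs_add_le _ _).trans (le_trans (add_le_add (abs_add_le _ _) (abs_add_le _ _)) ?_))
      have h1 := m _ _ _ _ (b2 x) (bS0 w x)
      have h2 := m _ _ _ _ (b1 x) (bS1 w x)
      have h3 := m _ _ _ _ (b0 x) (bS2 w x)
      linarith
  · intro x
    rw [KK_eq]
    have h : SS sech 0 x = sech x := by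
      unfold SS E1
      simp
    simp only [h, neg_zero, zero_div, Real.exp_zero, one_mul]
    rw [rel]
    ring

end Pool.Agent.TH424.AT
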